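import Pool.Agent.N463.MI.Stm

set_option autoImplicit false

/-!
# Reading digits with masks (part G04 of project MI of helper463)
-/

namespace Pool.Agent.N896.MI

open Finset

theorem and_split (w x y u v : ℕ) (hu : u < 2 ^ w) (hv : v < 2 ^ w) :
    (2 ^ w * x + u) &&& (2 ^ w * y + v) = 2 ^ w * (x &&& y) + (u &&& v) := by
  have huv : (u &&& v) < 2 ^ w := lt_of_le_of_lt Nat.and_le_left hu
  apply Nat.eq_of_testBit_eq
  intro j
  rw [Nat.testBit_and, Nat.testBit_two_pow_mul_add _ hu, Nat.testBit_two_pow_mul_add _ hv,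
    Nat.testBit_two_pow_mul_add _ huv]
  split_ifs with h
  · rw [Nat.testBit_and]
  · rw [Nat.testBit_and]

theorem low (w s e : ℕ) (hs : s < w) (he : e < 2 ^ w) (h : e &&& (2 ^ w - 2 ^ s) = 0) :
    e < 2 ^ s := by
  have hws : 2 ^ w = 2 ^ s * 2 ^ (w - s) := by rw [← pow_add]; congr 1; omega
  have hpos : 0 < 2 ^ s := by positivity
  have h1 : 2 ^ w - 2 ^ s = 2 ^ s * (2 ^ (w - s) - 1) + 0 := by
    rw [Nat.mul_sub, mul_one, ← hws, add_zero]
  have h2 : e = 2 ^ s * (e / 2 ^ s) + e % 2 ^ s := (Nat.div_add_mod e (2 ^ s)).symm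
  have h3 : e / 2 ^ s < 2 ^ (w - s) := by
    rw [Nat.div_lt_iff_lt_mul hpos, mul_comm, ← hws]
    exact he
  rw [h1, h2, and_split s _ _ _ _ (Nat.mod_lt _ hpos) hpos, Nat.and_two_pow_sub_one_eq_mod,
    Nat.mod_eq_of_lt h3, Nat.and_zero, add_zero] at h
  have h4 : e / 2 ^ s = 0 := by
    rcases Nat.mul_eq_zero.1 h with h5 | h5
    · omega
    · exact h5
  exact (Nat.div_eq_zero_iff_lt hpos).1 h4

theorem key (w s : ℕ) (hs : s < w) (m : ℕ) : ∀ X : ℕ, X < (2 ^ w) ^ m →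
    X &&& ((∑ i ∈ range m, (2 ^ w) ^ i) * (2 ^ w - 2 ^ s)) = 0 →
    (X + (∑ i ∈ range m, (2 ^ w) ^ i) * (2 ^ s - 1)) &&& ((∑ i ∈ range m, (2 ^ w) ^ i) * 2 ^ s)
      = (∑ i ∈ range m, (2 ^ w) ^ i) * 2 ^ s →
    ∃ e : ℕ → ℕ, (∀ i, i < m → 1 ≤ e i ∧ e i < 2 ^ s) ∧ X = ∑ i ∈ range m, e i * (2 ^ w) ^ i := by
  have hpos : 0 < 2 ^ s := by positivity
  have hposw : 0 < 2 ^ w := by positivity
  have hsw : 2 * 2 ^ s ≤ 2 ^ w := by
    rw [← pow_succ']
    exact Nat.pow_le_pow_right (by norm_num) hs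
  induction m with
  | zero =>
    intro X hX _ _
    refine ⟨fun _ => 0, fun i hi => absurd hi (Nat.not_lt_zero i), ?_⟩
    rw [pow_zero] at hX
    simp
    omega
  | succ m ih =>
    intro X hX h1 h2
    obtain ⟨O, hO⟩ : ∃ O : ℕ, O = ∑ i ∈ range m, (2 ^ w) ^ i := ⟨_, rfl⟩
    have hO1 : ∑ i ∈ range (m + 1), (2 ^ w) ^ i = 2 ^ w * O + 1 := by
      rw [Finset.sum_range_succ', pow_zero, hO, Finset.mul_sum]
      congr 1
      exact Finset.sum_congr rfl fun i _ => by rw [pow_succ, mul_comm]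
    rw [hO1] at h1 h2
    obtain ⟨X', hX'⟩ : ∃ X' : ℕ, X' = X / 2 ^ w := ⟨_, rfl⟩
    obtain ⟨e0, he0⟩ : ∃ e0 : ℕ, e0 = X % 2 ^ w := ⟨_, rfl⟩
    have he : e0 < 2 ^ w := by rw [he0]; exact Nat.mod_lt _ hposw
    have hXe : X = 2 ^ w * X' + e0 := by rw [hX', he0]; exact (Nat.div_add_mod X (2 ^ w)).symm
    have hX'lt : X' < (2 ^ w) ^ m := by
      rw [hX', Nat.div_lt_iff_lt_mul hposw, ← pow_succ]
      exact hX
    -- first condition
    have hm1 : 2 ^ w - 2 ^ s < 2 ^ w := by omega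
    have e1 : (2 ^ w * O + 1) * (2 ^ w - 2 ^ s) =
        2 ^ w * (O * (2 ^ w - 2 ^ s)) + (2 ^ w - 2 ^ s) := by ring
    rw [hXe, e1, and_split w _ _ _ _ he hm1] at h1
    have h3 : X' &&& (O * (2 ^ w - 2 ^ s)) = 0 := by
      have h4 : 2 ^ w * (X' &&& (O * (2 ^ w - 2 ^ s))) = 0 := by omega
      rcases Nat.mul_eq_zero.1 h4 with h5 | h5
      · omega
      · exact h5
    have h4 : e0 &&& (2 ^ w - 2 ^ s) = 0 := by omega
    have he0s : e0 < 2 ^ s := low w s e0 hs he h4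
    -- second condition
    have hm2 : e0 + (2 ^ s - 1) < 2 ^ w := by omega
    have hm3 : 2 ^ s < 2 ^ w := by omega
    have e2 : X + (2 ^ w * O + 1) * (2 ^ s - 1) =
        2 ^ w * (X' + O * (2 ^ s - 1)) + (e0 + (2 ^ s - 1)) := by rw [hXe]; ring
    have e3 : (2 ^ w * O + 1) * 2 ^ s = 2 ^ w * (O * 2 ^ s) + 2 ^ s := by ring
    rw [e2, e3, and_split w _ _ _ _ hm2 hm3] at h2
    obtain ⟨A, hA⟩ : ∃ A : ℕ, A = (X' + O * (2 ^ s - 1)) &&& (O * 2 ^ s) := ⟨_, rfl⟩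
    obtain ⟨D, hD⟩ : ∃ D : ℕ, D = (e0 + (2 ^ s - 1)) &&& 2 ^ s := ⟨_, rfl⟩
    rw [← hA, ← hD] at h2
    have hDlt : D < 2 ^ w := by
      rw [hD]; exact lt_of_le_of_lt Nat.and_le_right hm3
    have h5 : D = 2 ^ s := by
      have := congrArg (· % 2 ^ w) h2
      simp only [Nat.mul_add_mod] at this
      rwa [Nat.mod_eq_of_lt hDlt, Nat.mod_eq_of_lt hm3] at this
    have h6 : A = O * 2 ^ s := by
      rw [h5] at h2
      exact Nat.eq_of_mul_eq_mul_left hposw (Nat.add_right_cancel h2)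
    have h7 : 1 ≤ e0 := by
      have h8 : D ≤ e0 + (2 ^ s - 1) := by rw [hD]; exact Nat.and_le_left
      omega
    rw [hA] at h6
    rw [hO] at h3 h6
    obtain ⟨e, hee, hsum⟩ := ih X' hX'lt h3 h6
    refine ⟨fun i => if i = 0 then e0 else e (i - 1), ?_, ?_⟩
    · intro i hi
      rcases Nat.eq_zero_or_pos i with h | h
      · subst h
        simpa using ⟨h7, he0s⟩
      · have := hee (i - 1) (by omega)
        simpa [h.ne'] using this
    · rw [Finset.sum_range_succ', hXe]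
      simp only [Nat.add_eq_zero_iff, one_ne_zero, and_false, if_false, if_true, pow_zero, mul_one,
        Nat.add_sub_cancel]
      congr 1
      rw [hsum, Finset.mul_sum]
      exact Finset.sum_congr rfl fun i _ => by rw [pow_succ]; ring

theorem t_G04 : Pool.Agent.N463.MI.G04 := by
  intro w s m X hs hX h1 h2
  have h2w : 2 ≤ 2 ^ w := by
    calc 2 = 2 ^ 1 := rfl
      _ ≤ 2 ^ w := Nat.pow_le_pow_right (by norm_num) (by omega)
  rw [← Nat.geomSum_eq h2w m] at h1 h2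
  exact key w s hs m X hX h1 h2

end Pool.Agent.N896.MI
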